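import Pool.Agent.Y781.KW.Trav2

/-!
# Project KW: long displacements give many disjoint crossings, part 3: the traverses
-/

set_option autoImplicit false

namespace Pool.Agent.Y781.KW

open Y994.KW

/-- discrete continuity -/
theorem extract (p : ℕ → ℤ) (k : ℕ) (A B : ℤ) (hAB : A < B)
    (hA : ∀ l < k, p l < A → p (l + 1) ≤ A) (hB : ∀ l < k, p l < B → p (l + 1) ≤ B)
    (h0 : p 0 < A) (hk : B < p k) :
    ∃ a m : ℕ, 0 < m ∧ a + m ≤ k ∧ p a = A ∧ p (a + m) = B ∧
      ∀ l, 0 < l → l < m → A < p (a + l) ∧ p (a + l) < B := by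
  classical
  have hex : ∃ l, B ≤ p l := ⟨k, hk.le⟩
  set b := Nat.find hex with hb
  have hb1 : B ≤ p b := Nat.find_spec hex
  have hb2 : ∀ l < b, p l < B := fun l hl => not_le.1 (Nat.find_min hex hl)
  have hbk : b ≤ k := Nat.find_min' hex hk.le
  have hb0 : b ≠ 0 := by
    intro h
    rw [h] at hb1
    omega
  have hbB : p b = B := by
    have h1 := hB (b - 1) (by omega) (hb2 _ (by omega))
    rw [Nat.sub_add_cancel (by omega)] at h1
    omega
  set a := Nat.findGreatest (fun l => p l ≤ A) (b - 1) with ha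
  have ha1 : p a ≤ A := Nat.findGreatest_spec (P := fun l => p l ≤ A) (Nat.zero_le _) h0.le
  have hab : a ≤ b - 1 := Nat.findGreatest_le _
  have ha2 : ∀ l, a < l → l ≤ b - 1 → A < p l := by
    intro l h1 h2
    by_contra h
    exact Nat.findGreatest_is_greatest h1 h2 (not_lt.1 h)
  have haA : p a = A := by
    by_contra h
    have h1 := hA a (by omega) (lt_of_le_of_ne ha1 h)
    rcases Nat.lt_or_ge (a + 1) b with h2 | h2
    · have := ha2 (a + 1) (by omega) (by omega)
      omega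
    · have : a + 1 = b := by omega
      rw [this] at h1
      omega
  refine ⟨a, b - a, by omega, by omega, haA, ?_, ?_⟩
  · rw [Nat.add_sub_cancel' (by omega)]
    exact hbB
  · intro l h1 h2
    exact ⟨ha2 _ (by omega) (by omega), hb2 _ (by omega)⟩

theorem pos_even {s : St} (h : Ok s) {c : ℤ} (hc : pos s = 2 * c) :
    ∃ t, s = lf c t ∨ s = rt c t := by
  obtain ⟨q, t, rfl | rfl | rfl | rfl⟩ := ok_cases h
  · rw [pos_up] at hc; omega
  · rw [pos_dn] at hc; omega
  · rw [pos_lf] at hc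
    exact ⟨t, Or.inl (by rw [show q = c by omega])⟩
  · rw [pos_rt] at hc
    exact ⟨t, Or.inr (by rw [show q = c by omega])⟩

theorem pos_sh (z : ℤ) (s : St) : pos (sh z s) = pos s + 2 * z := by
  unfold pos sh
  ring

/-- the hypotheses of the theorem -/
structure Hy (n : ℕ) (σ : Cfg) (u v ρ : ℤ) (s : ℕ → St) (k : ℕ) : Prop where
  n1 : 1 ≤ n
  per : Per n σ
  a : ∀ i ≤ k, Ok (s i) ∧ u ≤ (s i).1.2 ∧ (s i).1.2 ≤ v ∧ u ≤ (s i).2.2 ∧ (s i).2.2 ≤ v ∧
    Pty ρ (s i).2
  b : ∀ i < k, s (i + 1) = wk n u σ (s i)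
  c : (∀ i < k, ∀ q : ℤ, s i ≠ dn q u) ∨
    ((ρ - u) % 2 = 1 ∧ ∀ i < k, ∀ q : ℤ, s i = dn q u → ¬ (2 * n + 1 : ℤ) ∣ q - 2 * n)

variable {n : ℕ} {σ : Cfg} {u v ρ : ℤ} {s : ℕ → St} {k : ℕ}

/-- the two kinds of steps -/
theorem Hy.step (h : Hy n σ u v ρ s k) {l : ℕ} (hl : l < k) :
    s (l + 1) = nxt σ (s l) ∨ ∃ q, s l = dn q u ∧ (ρ - u) % 2 = 1 ∧ ¬ (2 * n + 1 : ℤ) ∣ q - 2 * n ∧
      (((q % (2 * n + 1)) % 2 = 0 ∧ s (l + 1) = up (q + 1) u) ∨
        ((q % (2 * n + 1)) % 2 ≠ 0 ∧ s (l + 1) = up (q - 1) u)) := by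
  rw [h.b l hl]
  rcases wk_cases n u σ (h.a l hl.le).1 with ⟨q, h1, h2⟩ | h1
  · rcases h.c with h3 | ⟨h3, h4⟩
    · exact absurd h1 (h3 l hl q)
    · right
      refine ⟨q, h1, h3, h4 l hl q h1, ?_⟩
      by_cases h5 : (q % (2 * n + 1)) % 2 = 0
      · rw [if_pos h5] at h2
        exact Or.inl ⟨h5, h2⟩
      · rw [if_neg h5] at h2
        exact Or.inr ⟨h5, h2⟩
  · exact Or.inl h1

theorem Hy.cross (h : Hy n σ u v ρ s k) {l : ℕ} (hl : l < k) (c : ℤ) :
    (pos (s l) < 2 * (c * (2 * n + 1)) → pos (s (l + 1)) ≤ 2 * (c * (2 * n + 1))) ∧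
    (2 * (c * (2 * n + 1)) < pos (s l) → 2 * (c * (2 * n + 1)) ≤ pos (s (l + 1))) := by
  rcases h.step hl with h1 | ⟨q, h1, h2, h3, h4⟩
  · rw [h1]
    rcases pos_nxt σ (h.a l hl.le).1 with h2 | h2
    · constructor <;> intro _ <;> omega
    · constructor <;> intro _ <;> omega
  · rcases h4 with ⟨h4, h5⟩ | ⟨h4, h5⟩
    · rw [h1, h5, pos_dn, pos_up]
      constructor
      · intro h6
        by_contra h7
        apply h3
        refine ⟨c - 1, ?_⟩
        have h8 : q + 1 = c * (2 * n + 1) := by omega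
        linear_combination h8
      · intro _
        omega
    · rw [h1, h5, pos_dn, pos_up]
      constructor
      · intro _
        omega
      · intro h6
        by_contra h7
        apply h4
        have h8 : q = c * (2 * n + 1) := by omega
        rw [h8, Int.mul_emod_left]
        rfl

/-- the states at the lines -/
theorem Hy.dir_b (h : Hy n σ u v ρ s k) {l : ℕ} (hl : l < k) {c : ℤ}
    (hc : pos (s (l + 1)) = 2 * c) :
    (pos (s l) < 2 * c → ∃ t, s (l + 1) = rt c t) ∧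
    (2 * c < pos (s l) → ∃ t, s (l + 1) = lf c t) := by
  rcases h.step hl with h1 | ⟨q, h1, h2, h3, h4⟩
  · obtain ⟨q, t, h2 | h2 | h2 | h2⟩ := ok_cases (h.a l hl.le).1
    · rw [h2, nxt_up] at h1
      rw [h2, pos_up]
      split_ifs at h1
      · rw [h1, pos_rt] at hc
        have : c = q + 1 := by omega
        subst this
        exact ⟨fun _ => ⟨t, h1⟩, fun h3 => by omega⟩
      · rw [h1, pos_lf] at hc
        have : c = q := by omega
        subst this
        exact ⟨fun h3 => by omega, fun _ => ⟨t, h1⟩⟩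
    · rw [h2, nxt_dn] at h1
      rw [h2, pos_dn]
      split_ifs at h1
      · rw [h1, pos_lf] at hc
        have : c = q := by omega
        subst this
        exact ⟨fun h3 => by omega, fun _ => ⟨t - 1, h1⟩⟩
      · rw [h1, pos_rt] at hc
        have : c = q + 1 := by omega
        subst this
        exact ⟨fun _ => ⟨t - 1, h1⟩, fun h3 => by omega⟩
    · rw [h2, nxt_lf] at h1
      split_ifs at h1
      · rw [h1, pos_up] at hc; omega
      · rw [h1, pos_dn] at hc; omega
    · rw [h2, nxt_rt] at h1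
      split_ifs at h1
      · rw [h1, pos_dn] at hc; omega
      · rw [h1, pos_up] at hc; omega
  · rcases h4 with ⟨h4, h5⟩ | ⟨h4, h5⟩
    · rw [h5, pos_up] at hc; omega
    · rw [h5, pos_up] at hc; omega

theorem Hy.dir_a (h : Hy n σ u v ρ s k) {l : ℕ} (hl : l < k) {c : ℤ}
    (hc : pos (s l) = 2 * c) :
    (2 * c < pos (s (l + 1)) → ∃ t, s l = rt c t) ∧
    (pos (s (l + 1)) < 2 * c → ∃ t, s l = lf c t) := by
  rcases h.step hl with h1 | ⟨q, h1, h2, h3, h4⟩
  · obtain ⟨t, h2 | h2⟩ := pos_even (h.a l hl.le).1 hc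
    · refine ⟨fun h3 => ?_, fun _ => ⟨t, h2⟩⟩
      rw [h1, h2, nxt_lf] at h3
      split_ifs at h3
      · rw [pos_up] at h3; omega
      · rw [pos_dn] at h3; omega
    · refine ⟨fun _ => ⟨t, h2⟩, fun h3 => ?_⟩
      rw [h1, h2, nxt_rt] at h3
      split_ifs at h3
      · rw [pos_dn] at h3; omega
      · rw [pos_up] at h3; omega
  · rw [h1, pos_dn] at hc
    omega

theorem sub_le_one {s : St} (h : Ok s) : s.1.1 ≤ s.2.1 + 1 ∧ s.2.1 ≤ s.1.1 + 1 := by
  obtain ⟨q, t, rfl | rfl | rfl | rfl⟩ := ok_cases h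
  · exact ⟨by show q ≤ q + 1 + 1; omega, by show q + 1 ≤ q + 1; omega⟩
  · exact ⟨by show q + 1 ≤ q + 1; omega, by show q ≤ q + 1 + 1; omega⟩
  · exact ⟨by show q ≤ q + 1; omega, by show q ≤ q + 1; omega⟩
  · exact ⟨by show q ≤ q + 1; omega, by show q ≤ q + 1; omega⟩

/-- a part of the path in an even window -/
theorem Hy.seg (h : Hy n σ u v ρ s k) {i : ℤ} {a m : ℕ} (ham : a + m ≤ k)
    (hwin : ∀ l ≤ m, 2 * (2 * (i * (2 * n + 1))) ≤ pos (s (a + l)) ∧
      pos (s (a + l)) ≤ 2 * (2 * (i * (2 * n + 1)) + (2 * n + 1)))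
    (t0 : tl (rev (sh (-(2 * (i * (2 * n + 1)))) (s a))) ∉ TR 0 (2 * n + 1) u v)
    (tm : tl (sh (-(2 * (i * (2 * n + 1)))) (s (a + m))) ∉ TR 0 (2 * n + 1) u v) :
    Sg (2 * n + 1) u v σ (fun l => sh (-(2 * (i * (2 * n + 1)))) (s (a + l))) m := by
  have hz : ∀ j t, σ (j + -(2 * (i * (2 * n + 1)))) t = σ j t := by
    intro j t
    rw [← per_mul h.per (-(2 * i)) j t]
    congr 1
    ring
  set w : ℤ := i * (2 * n + 1) with hw
  constructor
  · intro l hl
    exact ok_sh _ (h.a _ (by omega)).1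
  · intro l hl
    have h1 := hwin l hl
    have h2 := sub_le_one (h.a (a + l) (by omega)).1
    unfold pos at h1
    show 0 ≤ (s (a + l)).1.1 + -(2 * w) ∧ (s (a + l)).1.1 + -(2 * w) ≤ 2 * n + 1 ∧
      0 ≤ (s (a + l)).2.1 + -(2 * w) ∧ (s (a + l)).2.1 + -(2 * w) ≤ 2 * n + 1
    omega
  · intro l hl
    have h1 := h.a (a + l) (by omega)
    exact ⟨h1.2.1, h1.2.2.1, h1.2.2.2.1, h1.2.2.2.2.1⟩
  · intro l hl
    rcases h.step (l := a + l) (by omega) with h1 | ⟨q, h1, h2, h3, h4⟩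
    · left
      show sh (-(2 * w)) (s (a + (l + 1))) = nxt σ (sh (-(2 * w)) (s (a + l)))
      rw [← sh_nxt hz (h.a (a + l) (by omega)).1, ← h1]
      rfl
    · right
      have h5 := hwin l hl.le
      rw [h1, pos_dn] at h5
      have hp : Pty ρ (s (a + l)).2 := (h.a (a + l) (by omega)).2.2.2.2.2
      rw [h1] at hp
      have hp2 : (q + u - ρ) % 2 = 0 := hp
      have h6 : q % (2 * n + 1) = q - 2 * w := by
        have h7 : q = (q - 2 * w) + (2 * (n : ℤ) + 1) * (2 * i) := by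
          rw [hw]
          ring
        conv_lhs => rw [h7]
        rw [Int.add_mul_emod_self_left]
        exact Int.emod_eq_of_lt (by omega) (by omega)
      rcases h4 with ⟨h4, h7⟩ | ⟨h4, h7⟩
      · rw [h6] at h4
        omega
      · refine ⟨q + -(2 * w), ?_, ?_⟩
        · show sh (-(2 * w)) (s (a + l)) = _
          rw [h1, sh_dn]
        · show sh (-(2 * w)) (s (a + (l + 1))) = _
          rw [show a + (l + 1) = a + l + 1 by ring, h7, sh_up]
          congr 1
          ring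
  · exact t0
  · exact tm

/-- a traverse to the right -/
structure TrR (n : ℕ) (σ : Cfg) (u v : ℤ) (s : ℕ → St) (k : ℕ) (i : ℤ) (a m : ℕ) (y : ℤ) :
    Prop where
  le : a + m ≤ k
  sg : Sg (2 * n + 1) u v σ (fun l => sh (-(2 * (i * (2 * n + 1)))) (s (a + l))) m
  mid : ∀ l ≤ m, l ≠ 0 → ¬ ((sh (-(2 * (i * (2 * n + 1)))) (s (a + l))).1.1 = 0 ∧
    (sh (-(2 * (i * (2 * n + 1)))) (s (a + l))).2.1 = 0)
  e0 : sh (-(2 * (i * (2 * n + 1)))) (s (a + 0)) = rt 0 y
  em : (sh (-(2 * (i * (2 * n + 1)))) (s (a + m))).2.1 = 2 * n + 1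

/-- a traverse to the left -/
structure TrL (n : ℕ) (σ : Cfg) (u v : ℤ) (s : ℕ → St) (k : ℕ) (i : ℤ) (a m : ℕ) (y : ℤ) :
    Prop where
  le : a + m ≤ k
  sg : Sg (2 * n + 1) u v σ (fun l => sh (-(2 * (i * (2 * n + 1)))) (s (a + l))) m
  mid : ∀ l ≤ m, l ≠ m → ¬ ((sh (-(2 * (i * (2 * n + 1)))) (s (a + l))).1.1 = 0 ∧
    (sh (-(2 * (i * (2 * n + 1)))) (s (a + l))).2.1 = 0)
  em : sh (-(2 * (i * (2 * n + 1)))) (s (a + m)) = lf 0 y
  e0 : (sh (-(2 * (i * (2 * n + 1)))) (s (a + 0))).2.1 = 2 * n + 1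

theorem Hy.window_right (h : Hy n σ u v ρ s k) (i : ℤ)
    (h0 : pos (s 0) < 2 * (2 * (i * (2 * n + 1))))
    (hk : 2 * (2 * (i * (2 * n + 1)) + (2 * n + 1)) < pos (s k)) :
    ∃ (a m : ℕ) (y : ℤ), TrR n σ u v s k i a m y := by
  have c1 : ∀ l < k, pos (s l) < 2 * (2 * (i * (2 * n + 1))) →
      pos (s (l + 1)) ≤ 2 * (2 * (i * (2 * n + 1))) := by
    intro l hl
    have := (h.cross hl (2 * i)).1
    rwa [show 2 * i * (2 * (n : ℤ) + 1) = 2 * (i * (2 * n + 1)) by ring] at this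
  have c2 : ∀ l < k, pos (s l) < 2 * (2 * (i * (2 * n + 1)) + (2 * n + 1)) →
      pos (s (l + 1)) ≤ 2 * (2 * (i * (2 * n + 1)) + (2 * n + 1)) := by
    intro l hl
    have := (h.cross hl (2 * i + 1)).1
    rwa [show (2 * i + 1) * (2 * (n : ℤ) + 1) = 2 * (i * (2 * n + 1)) + (2 * n + 1) by ring]
      at this
  obtain ⟨a, m, hm, ham, ha, hb, hin⟩ := extract (fun l => pos (s l)) k _ _ (by
    have : (0 : ℤ) ≤ n := Int.natCast_nonneg n
    omega) c1 c2 h0 hk
  set w : ℤ := i * (2 * n + 1) with hw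
  have hn : (0 : ℤ) ≤ n := Int.natCast_nonneg n
  -- the beginning
  have ha1 : 2 * (2 * w) < pos (s (a + 1)) := by
    rcases Nat.lt_or_ge 1 m with h1 | h1
    · exact (hin 1 one_pos h1).1
    · rw [show m = 1 by omega] at hb
      omega
  obtain ⟨y, hy⟩ := (h.dir_a (l := a) (by omega) ha).1 ha1
  -- the end
  have hb1 : pos (s (a + (m - 1))) < 2 * (2 * w + (2 * n + 1)) := by
    rcases Nat.lt_or_ge 1 m with h1 | h1
    · exact (hin (m - 1) (by omega) (by omega)).2
    · rw [show m - 1 = 0 by omega, Nat.add_zero]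
      omega
  have hb2 : pos (s (a + (m - 1) + 1)) = 2 * (2 * w + (2 * n + 1)) := by
    rw [show a + (m - 1) + 1 = a + m by omega]
    exact hb
  obtain ⟨t, ht⟩ := (h.dir_b (l := a + (m - 1)) (by omega) hb2).1 hb1
  rw [show a + (m - 1) + 1 = a + m by omega] at ht
  have e0 : sh (-(2 * w)) (s a) = rt 0 y := by
    rw [hy, sh_rt, add_neg_cancel]
  have em : sh (-(2 * w)) (s (a + m)) = rt (2 * n + 1) t := by
    rw [ht, sh_rt]
    congr 1
    ring
  refine ⟨a, m, y, ham, ?_, ?_, e0, ?_⟩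
  · refine h.seg ham ?_ ?_ ?_
    · intro l hl
      rcases Nat.eq_zero_or_pos l with h1 | h1
      · rw [h1, Nat.add_zero, ha]
        omega
      · rcases Nat.lt_or_ge l m with h2 | h2
        · have := hin l h1 h2
          omega
        · rw [show l = m by omega, hb]
          omega
    · rw [e0]
      intro h1
      have h2 : rev (rt 0 y) = lf 0 y := rfl
      rw [h2, tl_lf] at h1
      have := h1.1
      simp only at this
      omega
    · rw [em, tl_rt]
      intro h1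
      have := h1.2.1
      simp only at this
      omega
  · rintro l hl hl0 ⟨h1, h2⟩
    have h3 : pos (sh (-(2 * w)) (s (a + l))) = 0 := by
      unfold pos
      rw [h1, h2]
      rfl
    rw [pos_sh] at h3
    rcases Nat.lt_or_ge l m with h4 | h4
    · have := (hin l (by omega) h4).1
      omega
    · rw [show l = m by omega, hb] at h3
      omega
  · rw [em]
    rfl

theorem Hy.window_left (h : Hy n σ u v ρ s k) (i : ℤ)
    (hk : pos (s k) < 2 * (2 * (i * (2 * n + 1))))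
    (h0 : 2 * (2 * (i * (2 * n + 1)) + (2 * n + 1)) < pos (s 0)) :
    ∃ (a m : ℕ) (y : ℤ), TrL n σ u v s k i a m y := by
  have c1 : ∀ l < k, -pos (s l) < -(2 * (2 * (i * (2 * n + 1)))) →
      -pos (s (l + 1)) ≤ -(2 * (2 * (i * (2 * n + 1)))) := by
    intro l hl h1
    have := (h.cross hl (2 * i)).2
    rw [show 2 * i * (2 * (n : ℤ) + 1) = 2 * (i * (2 * n + 1)) by ring] at this
    have := this (by linarith)
    linarith
  have c2 : ∀ l < k, -pos (s l) < -(2 * (2 * (i * (2 * n + 1)) + (2 * n + 1))) →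
      -pos (s (l + 1)) ≤ -(2 * (2 * (i * (2 * n + 1)) + (2 * n + 1))) := by
    intro l hl h1
    have := (h.cross hl (2 * i + 1)).2
    rw [show (2 * i + 1) * (2 * (n : ℤ) + 1) = 2 * (i * (2 * n + 1)) + (2 * n + 1) by ring]
      at this
    have := this (by linarith)
    linarith
  obtain ⟨a, m, hm, ham, ha, hb, hin⟩ := extract (fun l => -pos (s l)) k _ _ (by
    have : (0 : ℤ) ≤ n := Int.natCast_nonneg n
    linarith) c2 c1 (by linarith) (by linarith)
  set w : ℤ := i * (2 * n + 1) with hw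
  have hn : (0 : ℤ) ≤ n := Int.natCast_nonneg n
  have ha' : pos (s a) = 2 * (2 * w + (2 * n + 1)) := by omega
  have hb' : pos (s (a + m)) = 2 * (2 * w) := by omega
  -- the beginning
  have ha1 : pos (s (a + 1)) < 2 * (2 * w + (2 * n + 1)) := by
    rcases Nat.lt_or_ge 1 m with h1 | h1
    · have := (hin 1 one_pos h1).1
      omega
    · rw [show m = 1 by omega] at hb'
      omega
  obtain ⟨y, hy⟩ := (h.dir_a (l := a) (by omega) ha').2 ha1
  -- the end
  have hb1 : 2 * (2 * w) < pos (s (a + (m - 1))) := by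
    rcases Nat.lt_or_ge 1 m with h1 | h1
    · have := (hin (m - 1) (by omega) (by omega)).2
      omega
    · rw [show m - 1 = 0 by omega, Nat.add_zero]
      omega
  have hb2 : pos (s (a + (m - 1) + 1)) = 2 * (2 * w) := by
    rw [show a + (m - 1) + 1 = a + m by omega]
    exact hb'
  obtain ⟨t, ht⟩ := (h.dir_b (l := a + (m - 1)) (by omega) hb2).2 hb1
  rw [show a + (m - 1) + 1 = a + m by omega] at ht
  have e0 : sh (-(2 * w)) (s a) = lf (2 * n + 1) y := by
    rw [hy, sh_lf]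
    congr 1
    ring
  have em : sh (-(2 * w)) (s (a + m)) = lf 0 t := by
    rw [ht, sh_lf, add_neg_cancel]
  refine ⟨a, m, t, ham, ?_, ?_, em, ?_⟩
  · refine h.seg ham ?_ ?_ ?_
    · intro l hl
      rcases Nat.eq_zero_or_pos l with h1 | h1
      · rw [h1, Nat.add_zero, ha']
        omega
      · rcases Nat.lt_or_ge l m with h2 | h2
        · have := hin l h1 h2
          omega
        · rw [show l = m by omega, hb']
          omega
    · rw [e0]
      intro h1
      have h2 : rev (lf (2 * (n : ℤ) + 1) y) = rt (2 * n + 1) y := rfl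
      rw [h2, tl_rt] at h1
      have := h1.2.1
      simp only at this
      omega
    · rw [em, tl_lf]
      intro h1
      have := h1.1
      simp only at this
      omega
  · rintro l hl hlm ⟨h1, h2⟩
    have h3 : pos (sh (-(2 * w)) (s (a + l))) = 0 := by
      unfold pos
      rw [h1, h2]
      rfl
    rw [pos_sh] at h3
    rcases Nat.eq_zero_or_pos l with h4 | h4
    · rw [h4, Nat.add_zero, ha'] at h3
      omega
    · have := (hin l h4 (by omega)).2
      omega
  · rw [Nat.add_zero, e0]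
    rfl

theorem rev_rev (s : St) : rev (rev s) = s := rfl

theorem rev_sh (z : ℤ) (s : St) : rev (sh z s) = sh z (rev s) := rfl

theorem sh_sh (y z : ℤ) (s : St) : sh y (sh z s) = sh (z + y) s := by
  unfold sh
  simp only [add_assoc]

theorem sh_zero (s : St) : sh 0 s = s := by
  unfold sh
  simp

/-- the traverses of different windows use different edges -/
theorem edges (hD : ∀ i ≤ k, ∀ l ≤ k, ∀ z : ℤ, (i ≠ l → s l ≠ sh ((2 * n + 1) * z) (s i)) ∧
    s l ≠ sh ((2 * n + 1) * z) (rev (s i))) {i i' : ℤ} (hne : i ≠ i') {a m a' m' : ℕ}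
    (ham : a + m ≤ k) (ham' : a' + m' ≤ k) :
    ∀ l ≤ m, ∀ l' ≤ m', sh (-(2 * (i * (2 * n + 1)))) (s (a + l)) ≠
        sh (-(2 * (i' * (2 * n + 1)))) (s (a' + l')) ∧
      sh (-(2 * (i * (2 * n + 1)))) (s (a + l)) ≠
        rev (sh (-(2 * (i' * (2 * n + 1)))) (s (a' + l'))) := by
  intro l hl l' hl'
  constructor
  · intro h1
    have h2 : s (a + l) = sh ((2 * n + 1) * (2 * (i - i'))) (s (a' + l')) := by
      have h3 := congrArg (sh (2 * (i * (2 * n + 1)))) h1
      rw [sh_sh, sh_sh, neg_add_cancel, sh_zero] at h3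
      rw [h3]
      congr 1
      ring
    by_cases h3 : a' + l' = a + l
    · rw [h3] at h2
      have h4 : (s (a + l)).1.1 = (s (a + l)).1.1 + (2 * n + 1) * (2 * (i - i')) :=
        congrArg (fun t : St => t.1.1) h2
      have h5 : (2 * (n : ℤ) + 1) * (2 * (i - i')) = 0 := by linarith
      rcases mul_eq_zero.1 h5 with h6 | h6
      · omega
      · apply hne
        omega
    · exact (hD (a' + l') (by omega) (a + l) (by omega) _).1 h3 h2
  · intro h1
    have h2 : s (a + l) = sh ((2 * n + 1) * (2 * (i - i'))) (rev (s (a' + l'))) := by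
      have h3 := congrArg (sh (2 * (i * (2 * n + 1)))) h1
      rw [rev_sh, sh_sh, sh_sh, neg_add_cancel, sh_zero] at h3
      rw [h3]
      congr 1
      ring
    exact (hD (a' + l') (by omega) (a + l) (by omega) _).2 h2

theorem t_TRAVG : S_FLOW → S_TRAVG := by
  intro hF n σ u v ρ s k r hn hper hA hB hC hD hE
  have h : Hy n σ u v ρ s k := ⟨hn, hper, hA, hB, hC⟩
  have hn' : (1 : ℤ) ≤ n := by exact_mod_cast hn
  have hsub : ∀ (i : ℤ) (a m : ℕ), a + m ≤ k →
      Sg (2 * n + 1) u v σ (fun l => sh (-(2 * (i * (2 * n + 1)))) (s (a + l))) m →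
      RC (fun l => sh (-(2 * (i * (2 * n + 1)))) (s (a + l))) m ⊆ Rc (2 * n + 1) u v ρ := by
    rintro i a m ham hs x ⟨l, hl, rfl⟩
    have h1 := hs.x1 l hl
    have h2 := hs.y1 l hl
    refine ⟨h1.2.2.1, h1.2.2.2, h2.2.2.1, h2.2.2.2, ?_⟩
    have h3 : Pty ρ (s (a + l)).2 := (hA (a + l) (by omega)).2.2.2.2.2
    unfold Pty at h3 ⊢
    show ((s (a + l)).2.1 + -(2 * (i * (2 * n + 1))) + (s (a + l)).2.2 - ρ) % 2 = 0
    omega
  have hpos : ∀ l ≤ k, 2 * (s l).1.1 - 1 ≤ pos (s l) ∧ pos (s l) ≤ 2 * (s l).1.1 + 1 := by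
    intro l hl
    have := sub_le_one (hA l hl).1
    unfold pos
    omega
  rcases le_abs.1 hE with hE | hE
  · -- movement to the right
    set i0 : ℤ := (s 0).1.1 / (2 * (2 * n + 1)) + 1 with hi0
    have e1 := Int.emod_add_mul_ediv (s 0).1.1 (2 * (2 * n + 1))
    have e2 := Int.emod_nonneg (s 0).1.1 (b := 2 * (2 * (n : ℤ) + 1)) (by omega)
    have e3 := Int.emod_lt_of_pos (s 0).1.1 (b := 2 * (2 * (n : ℤ) + 1)) (by omega)
    have f1 : (s 0).1.1 + 1 ≤ 2 * (i0 * (2 * n + 1)) := by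
      rw [hi0]
      linarith
    have f2 : 2 * (i0 * (2 * n + 1)) ≤ (s 0).1.1 + 2 * (2 * n + 1) := by
      rw [hi0]
      linarith
    have hw : ∀ j : Fin r, ∃ (a m : ℕ) (y : ℤ), TrR n σ u v s k (i0 + j) a m y := by
      intro j
      have hj : ((j : ℕ) : ℤ) + 1 ≤ r := by exact_mod_cast j.2
      have hj0 : (0 : ℤ) ≤ ((j : ℕ) : ℤ) := Int.natCast_nonneg _
      have g1 : 2 * ((i0 + j) * (2 * n + 1)) = 2 * (i0 * (2 * n + 1)) +
          2 * (((j : ℕ) : ℤ) * (2 * n + 1)) := by ring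
      have g2 : 0 ≤ ((j : ℕ) : ℤ) * (2 * n + 1) := mul_nonneg hj0 (by omega)
      have g3 : ((j : ℕ) : ℤ) * (2 * n + 1) + (2 * n + 1) ≤ r * (2 * n + 1) := by
        have := mul_le_mul_of_nonneg_right hj (by omega : (0 : ℤ) ≤ 2 * n + 1)
        linarith
      apply h.window_right
      · have := (hpos 0 (Nat.zero_le _)).2
        rw [g1]
        linarith
      · have := (hpos k le_rfl).1
        rw [g1]
        linarith
    choose a m y ht using hw
    refine ⟨fun j => RC (fun l => sh (-(2 * ((i0 + j) * (2 * n + 1)))) (s (a j + l))) (m j),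
      fun j => hsub _ _ _ (ht j).le (ht j).sg, ?_, ?_⟩
    · intro j j' hjj
      have hne : i0 + ((j : ℕ) : ℤ) ≠ i0 + ((j' : ℕ) : ℤ) := by
        intro h1
        apply hjj
        apply Fin.ext
        omega
      have d1 := edges hD hne (ht j).le (ht j').le
      have d2 := edges hD hne.symm (ht j').le (ht j).le
      have hy : y j ≠ y j' := by
        intro h1
        refine (d1 0 (Nat.zero_le _) 0 (Nat.zero_le _)).1 ?_
        rw [(ht j).e0, (ht j').e0, h1]
      rw [Set.disjoint_left]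
      rintro x ⟨l, hl, hx⟩ ⟨l', hl', hx'⟩
      rcases lt_or_gt_of_ne hy with hlt | hlt
      · exact disj_right hF (ht j).sg (ht j').sg d1 (Nat.zero_le _) (Nat.zero_le _) (ht j).mid
          (ht j).e0 (ht j').e0 hlt l hl l' hl' (hx.symm.trans hx')
      · exact disj_right hF (ht j').sg (ht j).sg d2 (Nat.zero_le _) (Nat.zero_le _) (ht j').mid
          (ht j').e0 (ht j).e0 hlt l' hl' l hl (hx'.symm.trans hx)
    · intro j
      refine (ht j).sg.crP ?_ (ht j).em
      show (sh (-(2 * ((i0 + j) * (2 * n + 1)))) (s (a j + 0))).2.1 = 0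
      rw [(ht j).e0]
      rfl
  · -- movement to the left
    set i0 : ℤ := (s k).1.1 / (2 * (2 * n + 1)) + 1 with hi0
    have e1 := Int.emod_add_mul_ediv (s k).1.1 (2 * (2 * n + 1))
    have e2 := Int.emod_nonneg (s k).1.1 (b := 2 * (2 * (n : ℤ) + 1)) (by omega)
    have e3 := Int.emod_lt_of_pos (s k).1.1 (b := 2 * (2 * (n : ℤ) + 1)) (by omega)
    have f1 : (s k).1.1 + 1 ≤ 2 * (i0 * (2 * n + 1)) := by
      rw [hi0]
      linarith
    have f2 : 2 * (i0 * (2 * n + 1)) ≤ (s k).1.1 + 2 * (2 * n + 1) := by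
      rw [hi0]
      linarith
    have hw : ∀ j : Fin r, ∃ (a m : ℕ) (y : ℤ), TrL n σ u v s k (i0 + j) a m y := by
      intro j
      have hj : ((j : ℕ) : ℤ) + 1 ≤ r := by exact_mod_cast j.2
      have hj0 : (0 : ℤ) ≤ ((j : ℕ) : ℤ) := Int.natCast_nonneg _
      have g1 : 2 * ((i0 + j) * (2 * n + 1)) = 2 * (i0 * (2 * n + 1)) +
          2 * (((j : ℕ) : ℤ) * (2 * n + 1)) := by ring
      have g2 : 0 ≤ ((j : ℕ) : ℤ) * (2 * n + 1) := mul_nonneg hj0 (by omega)
      have g3 : ((j : ℕ) : ℤ) * (2 * n + 1) + (2 * n + 1) ≤ r * (2 * n + 1) := by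
        have := mul_le_mul_of_nonneg_right hj (by omega : (0 : ℤ) ≤ 2 * n + 1)
        linarith
      apply h.window_left
      · have := (hpos k le_rfl).2
        rw [g1]
        linarith
      · have := (hpos 0 (Nat.zero_le _)).1
        rw [g1]
        linarith
    choose a m y ht using hw
    refine ⟨fun j => RC (fun l => sh (-(2 * ((i0 + j) * (2 * n + 1)))) (s (a j + l))) (m j),
      fun j => hsub _ _ _ (ht j).le (ht j).sg, ?_, ?_⟩
    · intro j j' hjj
      have hne : i0 + ((j : ℕ) : ℤ) ≠ i0 + ((j' : ℕ) : ℤ) := by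
        intro h1
        apply hjj
        apply Fin.ext
        omega
      have d1 := edges hD hne (ht j).le (ht j').le
      have d2 := edges hD hne.symm (ht j').le (ht j).le
      have hy : y j ≠ y j' := by
        intro h1
        refine (d1 (m j) le_rfl (m j') le_rfl).1 ?_
        rw [(ht j).em, (ht j').em, h1]
      rw [Set.disjoint_left]
      rintro x ⟨l, hl, hx⟩ ⟨l', hl', hx'⟩
      rcases lt_or_gt_of_ne hy with hlt | hlt
      · exact disj_left hF (ht j').sg (ht j).sg d2 le_rfl le_rfl (ht j').mid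
          (ht j').em (ht j).em hlt l' hl' l hl (hx'.symm.trans hx)
      · exact disj_left hF (ht j).sg (ht j').sg d1 le_rfl le_rfl (ht j).mid
          (ht j).em (ht j').em hlt l hl l' hl' (hx.symm.trans hx')
    · intro j
      refine (ht j).sg.crP' (ht j).e0 ?_
      show (sh (-(2 * ((i0 + j) * (2 * n + 1)))) (s (a j + m j))).2.1 = 0
      rw [(ht j).em]
      rfl

end Pool.Agent.Y781.KW
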