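import Pool.Agent.Y994.KW.Stm

/-!
# Project KW: long displacements give many disjoint crossings, part 1: steps of the walker
-/

set_option autoImplicit false

namespace Pool.Agent.Y781.KW

open Y994.KW

/-- the walker crosses a vertical edge to the left -/
def lf (q t : ℤ) : St := ((q, t), (q, t + 1))

/-- the walker crosses a vertical edge to the right -/
def rt (q t : ℤ) : St := ((q, t + 1), (q, t))

/-- twice the first coordinate of the walker -/
def pos (s : St) : ℤ := s.1.1 + s.2.1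

theorem ok_cases {s : St} (h : Ok s) :
    ∃ q t : ℤ, s = up q t ∨ s = dn q t ∨ s = lf q t ∨ s = rt q t := h

theorem ok_up (q t : ℤ) : Ok (up q t) := ⟨q, t, Or.inl rfl⟩
theorem ok_dn (q t : ℤ) : Ok (dn q t) := ⟨q, t, Or.inr (Or.inl rfl)⟩
theorem ok_lf (q t : ℤ) : Ok (lf q t) := ⟨q, t, Or.inr (Or.inr (Or.inl rfl))⟩
theorem ok_rt (q t : ℤ) : Ok (rt q t) := ⟨q, t, Or.inr (Or.inr (Or.inr rfl))⟩

theorem pos_up (q t : ℤ) : pos (up q t) = 2 * q + 1 := by
  unfold pos up
  ring

theorem pos_dn (q t : ℤ) : pos (dn q t) = 2 * q + 1 := by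
  unfold pos dn
  ring

theorem pos_lf (q t : ℤ) : pos (lf q t) = 2 * q := by
  unfold pos lf
  ring

theorem pos_rt (q t : ℤ) : pos (rt q t) = 2 * q := by
  unfold pos rt
  ring

theorem tl_up (q t : ℤ) : tl (up q t) = (q, t) := by
  simp [tl, up, rot]

theorem tl_dn (q t : ℤ) : tl (dn q t) = (q, t - 1) := by
  simp [tl, dn, rot]
  ring

theorem tl_lf (q t : ℤ) : tl (lf q t) = (q - 1, t) := by
  simp [tl, lf, rot]
  ring

theorem tl_rt (q t : ℤ) : tl (rt q t) = (q, t) := by
  simp [tl, rt, rot]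

theorem nxt_up (σ : Cfg) (q t : ℤ) :
    nxt σ (up q t) = if σ q t = false then rt (q + 1) t else lf q t := by
  unfold nxt
  rw [tl_up]
  simp [up, rt, lf, rot]

theorem nxt_dn (σ : Cfg) (q t : ℤ) :
    nxt σ (dn q t) = if σ q (t - 1) = false then lf q (t - 1) else rt (q + 1) (t - 1) := by
  unfold nxt
  rw [tl_dn]
  simp [dn, rt, lf, rot, sub_eq_add_neg]

theorem nxt_lf (σ : Cfg) (q t : ℤ) :
    nxt σ (lf q t) = if σ (q - 1) t = true then up (q - 1) (t + 1) else dn (q - 1) t := by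
  unfold nxt
  rw [tl_lf]
  simp [up, dn, lf, rot, sub_eq_add_neg]

theorem nxt_rt (σ : Cfg) (q t : ℤ) :
    nxt σ (rt q t) = if σ q t = true then dn q t else up q (t + 1) := by
  unfold nxt
  rw [tl_rt]
  simp [up, dn, rt, rot]

theorem ok_nxt (σ : Cfg) {s : St} (h : Ok s) : Ok (nxt σ s) := by
  obtain ⟨q, t, rfl | rfl | rfl | rfl⟩ := ok_cases h
  · rw [nxt_up]
    split_ifs
    · exact ok_rt _ _
    · exact ok_lf _ _
  · rw [nxt_dn]
    split_ifs
    · exact ok_lf _ _
    · exact ok_rt _ _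
  · rw [nxt_lf]
    split_ifs
    · exact ok_up _ _
    · exact ok_dn _ _
  · rw [nxt_rt]
    split_ifs
    · exact ok_dn _ _
    · exact ok_up _ _

theorem stp_nxt (σ : Cfg) (s : St) : Stp s (nxt σ s) := by
  unfold nxt
  split_ifs
  · exact Or.inl rfl
  · exact Or.inr rfl

/-- the first coordinate changes by at most one half -/
theorem pos_nxt (σ : Cfg) {s : St} (h : Ok s) :
    pos (nxt σ s) = pos s + 1 ∨ pos (nxt σ s) = pos s - 1 := by
  obtain ⟨q, t, rfl | rfl | rfl | rfl⟩ := ok_cases h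
  · rw [nxt_up]
    split_ifs
    · rw [pos_rt, pos_up]; left; ring
    · rw [pos_lf, pos_up]; right; ring
  · rw [nxt_dn]
    split_ifs
    · rw [pos_lf, pos_dn]; right; ring
    · rw [pos_rt, pos_dn]; left; ring
  · rw [nxt_lf]
    split_ifs
    · rw [pos_up, pos_lf]; right; ring
    · rw [pos_dn, pos_lf]; right; ring
  · rw [nxt_rt]
    split_ifs
    · rw [pos_dn, pos_rt]; left; ring
    · rw [pos_up, pos_rt]; left; ring

/-- the right corner stays or moves along an open diagonal -/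
theorem right_nxt (σ : Cfg) {s : St} (h : Ok s) :
    (nxt σ s).2 = s.2 ∨ Op σ s.2 (nxt σ s).2 := by
  obtain ⟨q, t, rfl | rfl | rfl | rfl⟩ := ok_cases h
  · rw [nxt_up]
    split_ifs with h1
    · left; rfl
    · right
      right; right; left
      refine ⟨by simp [up, lf], ?_⟩
      simpa [up, lf] using h1
  · rw [nxt_dn]
    split_ifs with h1
    · left; simp [dn, lf]
    · right
      right; right; right
      refine ⟨by simp [dn, rt], ?_⟩
      simpa [dn, rt] using h1
  · rw [nxt_lf]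
    split_ifs with h1
    · left; simp [up, lf]
    · right
      right; left
      refine ⟨by simp [dn, lf], ?_⟩
      simpa [dn, lf] using h1
  · rw [nxt_rt]
    split_ifs with h1
    · left; rfl
    · right
      left
      refine ⟨by simp [up, rt], ?_⟩
      simpa [up, rt] using h1

/-- the state has a corner in common with the next one -/
theorem common_nxt (σ : Cfg) (s : St) : (nxt σ s).2 = s.2 ∨ (nxt σ s).1 = s.1 := by
  unfold nxt
  split_ifs
  · left; rfl
  · right; rfl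

theorem op_symm {σ : Cfg} {x y : Pt} (h : Op σ x y) : Op σ y x := by
  rcases h with h | h | h | h
  · exact Or.inr (Or.inl h)
  · exact Or.inl h
  · exact Or.inr (Or.inr (Or.inr h))
  · exact Or.inr (Or.inr (Or.inl h))

theorem sh_up (z q t : ℤ) : sh z (up q t) = up (q + z) t := by
  simp [sh, up]
  ring

theorem sh_dn (z q t : ℤ) : sh z (dn q t) = dn (q + z) t := by
  simp [sh, dn]
  ring

theorem sh_lf (z q t : ℤ) : sh z (lf q t) = lf (q + z) t := by
  simp [sh, lf]

theorem sh_rt (z q t : ℤ) : sh z (rt q t) = rt (q + z) t := by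
  simp [sh, rt]

theorem ok_sh (z : ℤ) {s : St} (h : Ok s) : Ok (sh z s) := by
  obtain ⟨q, t, rfl | rfl | rfl | rfl⟩ := ok_cases h
  · rw [sh_up]; exact ok_up _ _
  · rw [sh_dn]; exact ok_dn _ _
  · rw [sh_lf]; exact ok_lf _ _
  · rw [sh_rt]; exact ok_rt _ _

/-- translations commute with the steps -/
theorem sh_nxt {σ : Cfg} {z : ℤ} (hz : ∀ j t, σ (j + z) t = σ j t) {s : St} (h : Ok s) :
    sh z (nxt σ s) = nxt σ (sh z s) := by
  obtain ⟨q, t, rfl | rfl | rfl | rfl⟩ := ok_cases h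
  · rw [nxt_up, sh_up, nxt_up, hz]
    split_ifs
    · rw [sh_rt]; congr 1; ring
    · rw [sh_lf]
  · rw [nxt_dn, sh_dn, nxt_dn, hz]
    split_ifs
    · rw [sh_lf]
    · rw [sh_rt]; congr 1; ring
  · rw [nxt_lf, sh_lf, nxt_lf, show q + z - 1 = q - 1 + z by ring, hz]
    split_ifs
    · rw [sh_up]
    · rw [sh_dn]
  · rw [nxt_rt, sh_rt, nxt_rt, hz]
    split_ifs
    · rw [sh_dn]
    · rw [sh_up]

theorem per_mul {n : ℕ} {σ : Cfg} (h : Per n σ) (c : ℤ) (j t : ℤ) :
    σ (j + (2 * n + 1) * c) t = σ j t := by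
  induction c using Int.induction_on with
  | zero => simp
  | succ i ih =>
    rw [show j + (2 * (n : ℤ) + 1) * (i + 1) = (j + (2 * n + 1) * i) + (2 * n + 1) by ring, h, ih]
  | pred i ih =>
    rw [← ih, ← h (j + (2 * (n : ℤ) + 1) * (-(i : ℤ) - 1))]
    congr 1
    ring

/-- the steps of the walker with caps -/
theorem wk_cases (n : ℕ) (a : ℤ) (σ : Cfg) {s : St} (h : Ok s) :
    (∃ q, s = dn q a ∧ wk n a σ s =
      if (q % (2 * n + 1)) % 2 = 0 then up (q + 1) a else up (q - 1) a) ∨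
    wk n a σ s = nxt σ s := by
  obtain ⟨⟨a1, a2⟩, ⟨b1, b2⟩⟩ := s
  by_cases hc : a2 = a ∧ b2 = a ∧ a1 = b1 + 1
  · left
    obtain ⟨rfl, rfl, rfl⟩ := hc
    refine ⟨b1, rfl, ?_⟩
    unfold wk
    rw [if_pos ⟨rfl, rfl, rfl⟩]
    show (if (b1 % (2 * (n : ℤ) + 1)) % 2 = 0 then (((b1 + 1, b2), (b1 + 2, b2)) : St)
      else ((b1 + 1 - 2, b2), (b1, b2))) = _
    split_ifs
    · unfold up
      rw [show b1 + 1 + 1 = b1 + 2 by ring]
    · unfold up
      rw [show b1 + 1 - 2 = b1 - 1 by ring, show b1 - 1 + 1 = b1 by ring]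
  · right
    unfold wk
    exact if_neg hc

end Pool.Agent.Y781.KW
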