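import Pool.Agent.Y781.KW.Trav1

/-!
# Project KW: long displacements give many disjoint crossings, part 2: heights and disjointness
-/

set_option autoImplicit false

namespace Pool.Agent.Y781.KW

open Y994.KW

/-- a traverse of the window `[0,N] x [u,v]` -/
structure Sg (N u v : ℤ) (σ : Cfg) (S : ℕ → St) (m : ℕ) : Prop where
  ok : ∀ l ≤ m, Ok (S l)
  x1 : ∀ l ≤ m, 0 ≤ (S l).1.1 ∧ (S l).1.1 ≤ N ∧ 0 ≤ (S l).2.1 ∧ (S l).2.1 ≤ N
  y1 : ∀ l ≤ m, u ≤ (S l).1.2 ∧ (S l).1.2 ≤ v ∧ u ≤ (S l).2.2 ∧ (S l).2.2 ≤ v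
  st : ∀ l < m, S (l + 1) = nxt σ (S l) ∨ ∃ q, S l = dn q u ∧ S (l + 1) = up (q - 1) u
  t0 : tl (rev (S 0)) ∉ TR 0 N u v
  tm : tl (S m) ∉ TR 0 N u v

variable {N u v : ℤ} {σ : Cfg} {S S' : ℕ → St} {m m' : ℕ}

theorem Sg.mem1 (h : Sg N u v σ S m) {l : ℕ} (hl : l ≤ m) : (S l).1 ∈ CR 0 N u v :=
  ⟨(h.x1 l hl).1, (h.x1 l hl).2.1, (h.y1 l hl).1, (h.y1 l hl).2.1⟩

theorem Sg.mem2 (h : Sg N u v σ S m) {l : ℕ} (hl : l ≤ m) : (S l).2 ∈ CR 0 N u v :=
  ⟨(h.x1 l hl).2.2.1, (h.x1 l hl).2.2.2, (h.y1 l hl).2.2.1, (h.y1 l hl).2.2.2⟩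

/-- the right corners -/
theorem Sg.right (h : Sg N u v σ S m) {l : ℕ} (hl : l < m) :
    (S (l + 1)).2 = (S l).2 ∨ Op σ (S l).2 (S (l + 1)).2 := by
  rcases h.st l hl with h1 | ⟨q, h1, h2⟩
  · rw [h1]
    exact right_nxt σ (h.ok l hl.le)
  · left
    rw [h1, h2]
    simp [up, dn]

/-- consecutive states have a corner in common -/
theorem Sg.common (h : Sg N u v σ S m) {l : ℕ} (hl : l < m) :
    (S (l + 1)).2 = (S l).2 ∨ (S (l + 1)).1 = (S l).1 := by
  rcases h.st l hl with h1 | ⟨q, h1, h2⟩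
  · rw [h1]
    exact common_nxt σ _
  · left
    rw [h1, h2]
    simp [up, dn]

/-- the height function -/
theorem Sg.flow (hF : S_FLOW) (h : Sg N u v σ S m) : ∃ H : Pt → ℤ,
    (∀ x ∈ CR 0 N u v, ∀ y ∈ CR 0 N u v, Ok (x, y) → H y - H x = fl S m x y) ∧
    ∀ x ∈ CR 0 N u v, ∀ y ∈ CR 0 N u v, Op σ x y → H x = H y := by
  have hN : 0 ≤ N := (h.x1 0 (Nat.zero_le _)).1.trans (h.x1 0 (Nat.zero_le _)).2.1
  have huv : u ≤ v := (h.y1 0 (Nat.zero_le _)).1.trans (h.y1 0 (Nat.zero_le _)).2.1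
  have hdn : ∀ q, tl (dn q u) ∉ TR 0 N u v := by
    intro q hq
    rw [tl_dn] at hq
    have := hq.2.2.1
    simp only at this
    omega
  obtain ⟨H, -, h2, h3⟩ := hF 0 N u v S m hN huv h.ok (fun i hi => by
    rcases h.st i hi with h1 | ⟨q, h1, h2⟩
    · left
      rw [h1]
      exact stp_nxt _ _
    · right
      refine ⟨by rw [h1]; exact hdn q, ?_⟩
      rw [h2]
      exact hdn (q - 1)) h.tm h.t0
  refine ⟨H, h2, h3 σ fun i hi hT => ?_⟩
  rcases h.st i hi with h1 | ⟨q, h1, -⟩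
  · exact h1
  · rw [h1] at hT
    exact absurd hT (hdn q)

/-- the heights on the right corners -/
theorem Sg.const_right (h : Sg N u v σ S m) {H : Pt → ℤ}
    (hH : ∀ x ∈ CR 0 N u v, ∀ y ∈ CR 0 N u v, Op σ x y → H x = H y) :
    ∀ l ≤ m, H (S l).2 = H (S 0).2 := by
  intro l
  induction l with
  | zero => intro _; rfl
  | succ l ih =>
    intro hl
    rw [← ih (by omega)]
    rcases h.right (l := l) (by omega) with h1 | h1
    · rw [h1]
    · exact (hH _ (h.mem2 (by omega)) _ (h.mem2 hl) h1).symm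

open Classical in
/-- the heights on the corners of another traverse -/
theorem Sg.const_other (h' : Sg N u v σ S' m') {H : Pt → ℤ}
    (hH : ∀ x ∈ CR 0 N u v, ∀ y ∈ CR 0 N u v, Ok (x, y) → H y - H x = fl S m x y)
    (hd : ∀ l ≤ m, ∀ l' ≤ m', S l ≠ S' l' ∧ S l ≠ rev (S' l')) :
    ∀ l ≤ m', H (S' l).2 = H (S' 0).2 := by
  have h1 : ∀ l ≤ m', H (S' l).2 = H (S' l).1 := by
    intro l hl
    have h2 := hH _ (h'.mem1 hl) _ (h'.mem2 hl) (h'.ok l hl)
    have h3 : fl S m (S' l).1 (S' l).2 = 0 := by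
      unfold fl
      rw [Finset.filter_eq_empty_iff.2, Finset.filter_eq_empty_iff.2]
      · simp
      · intro i hi h4
        exact (hd i (by rw [Finset.mem_range] at hi; omega) l hl).2 h4
      · intro i hi h4
        exact (hd i (by rw [Finset.mem_range] at hi; omega) l hl).1 h4
    omega
  intro l
  induction l with
  | zero => intro _; rfl
  | succ l ih =>
    intro hl
    rw [← ih (by omega)]
    rcases h'.common (l := l) (by omega) with h2 | h2
    · rw [h2]
    · rw [h1 (l + 1) hl, h2, h1 l (by omega)]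

open Classical in
/-- the flow across the edges of the line `x = 0` -/
theorem fl_line {t : ℤ} {e : ℕ}
    (hmid : ∀ l ≤ m, l ≠ e → ¬ ((S l).1.1 = 0 ∧ (S l).2.1 = 0)) (h1 : S e ≠ lf 0 t)
    (h2 : S e ≠ rt 0 t) : fl S m (0, t) (0, t + 1) = 0 := by
  unfold fl
  rw [Finset.filter_eq_empty_iff.2, Finset.filter_eq_empty_iff.2]
  · simp
  · intro i hi h4
    by_cases hie : i = e
    · rw [hie] at h4
      exact h2 h4
    · refine hmid i (by rw [Finset.mem_range] at hi; omega) hie ?_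
      rw [h4]
      exact ⟨rfl, rfl⟩
  · intro i hi h4
    by_cases hie : i = e
    · rw [hie] at h4
      exact h1 h4
    · refine hmid i (by rw [Finset.mem_range] at hi; omega) hie ?_
      rw [h4]
      exact ⟨rfl, rfl⟩

open Classical in
theorem fl_rt {t : ℤ} {e : ℕ} (he : e ≤ m)
    (hmid : ∀ l ≤ m, l ≠ e → ¬ ((S l).1.1 = 0 ∧ (S l).2.1 = 0)) (h1 : S e = rt 0 t) :
    fl S m (0, t) (0, t + 1) = -1 := by
  unfold fl
  have e1 : (Finset.range (m + 1)).filter (fun i => S i = ((0, t + 1), (0, t))) = {e} := by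
    ext i
    rw [Finset.mem_filter, Finset.mem_range, Finset.mem_singleton]
    constructor
    · rintro ⟨hi, h4⟩
      by_contra hie
      refine hmid i (by omega) hie ?_
      rw [h4]
      exact ⟨rfl, rfl⟩
    · rintro rfl
      exact ⟨by omega, h1⟩
  rw [e1, Finset.filter_eq_empty_iff.2]
  · simp
  · intro i hi h4
    by_cases hie : i = e
    · rw [hie, h1] at h4
      have : t + 1 = t := congrArg (fun s : St => s.1.2) h4
      omega
    · refine hmid i (by rw [Finset.mem_range] at hi; omega) hie ?_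
      rw [h4]
      exact ⟨rfl, rfl⟩

open Classical in
theorem fl_lf {t : ℤ} {e : ℕ} (he : e ≤ m)
    (hmid : ∀ l ≤ m, l ≠ e → ¬ ((S l).1.1 = 0 ∧ (S l).2.1 = 0)) (h1 : S e = lf 0 t) :
    fl S m (0, t) (0, t + 1) = 1 := by
  unfold fl
  have e1 : (Finset.range (m + 1)).filter (fun i => S i = ((0, t), (0, t + 1))) = {e} := by
    ext i
    rw [Finset.mem_filter, Finset.mem_range, Finset.mem_singleton]
    constructor
    · rintro ⟨hi, h4⟩
      by_contra hie
      refine hmid i (by omega) hie ?_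
      rw [h4]
      exact ⟨rfl, rfl⟩
    · rintro rfl
      exact ⟨by omega, h1⟩
  rw [e1, Finset.filter_eq_empty_iff.2]
  · simp
  · intro i hi h4
    by_cases hie : i = e
    · rw [hie, h1] at h4
      have : t = t + 1 := congrArg (fun s : St => s.1.2) h4
      omega
    · refine hmid i (by rw [Finset.mem_range] at hi; omega) hie ?_
      rw [h4]
      exact ⟨rfl, rfl⟩

theorem mem_line (hN : 0 ≤ N) {t : ℤ} (h1 : u ≤ t) (h2 : t ≤ v) : ((0, t) : Pt) ∈ CR 0 N u v :=
  ⟨le_rfl, hN, h1, h2⟩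

/-- disjointness for movements to the right -/
theorem disj_right (hF : S_FLOW) (h : Sg N u v σ S m) (h' : Sg N u v σ S' m')
    (hd : ∀ l ≤ m, ∀ l' ≤ m', S l ≠ S' l' ∧ S l ≠ rev (S' l')) {e e' : ℕ} (he : e ≤ m)
    (he' : e' ≤ m') (hmid : ∀ l ≤ m, l ≠ e → ¬ ((S l).1.1 = 0 ∧ (S l).2.1 = 0)) {y y' : ℤ}
    (hy : S e = rt 0 y) (hy' : S' e' = rt 0 y') (hlt : y < y') :
    ∀ l ≤ m, ∀ l' ≤ m', (S l).2 ≠ (S' l').2 := by
  obtain ⟨H, H1, H2⟩ := h.flow hF
  have hN : 0 ≤ N := (h.x1 0 (Nat.zero_le _)).1.trans (h.x1 0 (Nat.zero_le _)).2.1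
  have hyu : u ≤ y := by
    have := (h.y1 e he).2.2.1
    rw [hy] at this
    exact this
  have hyv : y' ≤ v := by
    have := (h'.y1 e' he').2.2.2
    rw [hy'] at this
    exact this
  have hc := h.const_right H2
  have hc' := h'.const_other H1 hd
  have key : ∀ d : ℕ, y + 1 + d ≤ v → H (0, y + 1 + d) = H (0, y) - 1 := by
    intro d
    induction d with
    | zero =>
      intro hv
      rw [Nat.cast_zero, add_zero] at hv ⊢
      have h1 := H1 (0, y) (mem_line hN hyu (by omega)) (0, y + 1) (mem_line hN (by omega) hv)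
        (ok_lf 0 y)
      rw [fl_rt he hmid hy] at h1
      omega
    | succ d ih =>
      intro hv
      have ih1 := ih (by push_cast at hv; omega)
      have h1 := H1 (0, y + 1 + d) (mem_line hN (by omega) (by push_cast at hv; omega))
        (0, y + 1 + d + 1) (mem_line hN (by omega) (by push_cast at hv; omega))
        (ok_lf 0 (y + 1 + d))
      rw [fl_line hmid (e := e) (by
        rw [hy]
        intro h4
        have h5 : y + 1 = y + 1 + d := congrArg (fun s : St => s.1.2) h4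
        have h6 : y = y + 1 + d + 1 := congrArg (fun s : St => s.2.2) h4
        omega) (by
        rw [hy]
        intro h4
        have h5 : y = y + 1 + d := congrArg (fun s : St => s.2.2) h4
        omega)] at h1
      rw [show y + 1 + ((d + 1 : ℕ) : ℤ) = y + 1 + d + 1 by push_cast; ring]
      omega
  intro l hl l' hl' heq
  have h1 : H (S e).2 = H (S l).2 := (hc e he).trans (hc l hl).symm
  have h2 : H (S' e').2 = H (S' l').2 := (hc' e' he').trans (hc' l' hl').symm
  rw [heq, ← h2, hy, hy'] at h1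
  have h3 := key (y' - (y + 1)).toNat (by omega)
  rw [Int.toNat_of_nonneg (by omega), show y + 1 + (y' - (y + 1)) = y' by ring] at h3
  have h4 : H (0, y) = H (0, y') := h1
  omega

/-- disjointness for movements to the left -/
theorem disj_left (hF : S_FLOW) (h : Sg N u v σ S m) (h' : Sg N u v σ S' m')
    (hd : ∀ l ≤ m, ∀ l' ≤ m', S l ≠ S' l' ∧ S l ≠ rev (S' l')) {e e' : ℕ} (he : e ≤ m)
    (he' : e' ≤ m') (hmid : ∀ l ≤ m, l ≠ e → ¬ ((S l).1.1 = 0 ∧ (S l).2.1 = 0)) {y y' : ℤ}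
    (hy : S e = lf 0 y) (hy' : S' e' = lf 0 y') (hlt : y' < y) :
    ∀ l ≤ m, ∀ l' ≤ m', (S l).2 ≠ (S' l').2 := by
  obtain ⟨H, H1, H2⟩ := h.flow hF
  have hN : 0 ≤ N := (h.x1 0 (Nat.zero_le _)).1.trans (h.x1 0 (Nat.zero_le _)).2.1
  have hyv : y + 1 ≤ v := by
    have := (h.y1 e he).2.2.2
    rw [hy] at this
    exact this
  have hyu : u ≤ y' := by
    have := (h'.y1 e' he').1
    rw [hy'] at this
    exact this
  have hc := h.const_right H2
  have hc' := h'.const_other H1 hd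
  have h0 : H (0, y + 1) = H (0, y) + 1 := by
    have h1 := H1 (0, y) (mem_line hN (by omega) (by omega)) (0, y + 1)
      (mem_line hN (by omega) hyv) (ok_lf 0 y)
    rw [fl_lf he hmid hy] at h1
    omega
  have key : ∀ d : ℕ, u ≤ y - d → H (0, y - d) = H (0, y) := by
    intro d
    induction d with
    | zero =>
      intro _
      rw [Nat.cast_zero, sub_zero]
    | succ d ih =>
      intro hv
      have ih1 := ih (by push_cast at hv; omega)
      have h1 := H1 (0, y - d - 1) (mem_line hN (by push_cast at hv; omega) (by omega))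
        (0, y - d - 1 + 1) (mem_line hN (by push_cast at hv; omega) (by omega))
        (ok_lf 0 (y - d - 1))
      rw [fl_line hmid (e := e) (by
        rw [hy]
        intro h4
        have h5 : y = y - d - 1 := congrArg (fun s : St => s.1.2) h4
        omega) (by
        rw [hy]
        intro h4
        have h5 : y = y - d - 1 + 1 := congrArg (fun s : St => s.1.2) h4
        have h6 : y + 1 = y - d - 1 := congrArg (fun s : St => s.2.2) h4
        omega)] at h1
      rw [show y - d - 1 + 1 = y - d by ring] at h1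
      rw [show y - ((d + 1 : ℕ) : ℤ) = y - d - 1 by push_cast; ring]
      omega
  intro l hl l' hl' heq
  have h1 : H (S e).2 = H (S l).2 := (hc e he).trans (hc l hl).symm
  have h2 : H (S' e').2 = H (S' l').2 := (hc' e' he').trans (hc' l' hl').symm
  rw [heq, ← h2, hy, hy'] at h1
  have h3 := key (y - (y' + 1)).toNat (by omega)
  rw [Int.toNat_of_nonneg (by omega), show y - (y - (y' + 1)) = y' + 1 by ring] at h3
  have h4 : H (0, y + 1) = H (0, y' + 1) := h1
  omega

/-- the right corners of a traverse -/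
def RC (S : ℕ → St) (m : ℕ) : Set Pt := {x | ∃ l ≤ m, x = (S l).2}

/-- the right corners are connected -/
theorem Sg.path (h : Sg N u v σ S m) : ∀ l ≤ m,
    Relation.ReflTransGen (fun a b => a ∈ RC S m ∧ b ∈ RC S m ∧ Op σ a b) (S 0).2 (S l).2 := by
  intro l
  induction l with
  | zero => intro _; exact Relation.ReflTransGen.refl
  | succ l ih =>
    intro hl
    rcases h.right (l := l) (by omega) with h1 | h1
    · rw [h1]
      exact ih (by omega)
    · exact (ih (by omega)).tail ⟨⟨l, by omega, rfl⟩, ⟨l + 1, hl, rfl⟩, h1⟩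

theorem Sg.crP (h : Sg N u v σ S m) (h0 : (S 0).2.1 = 0) (hm : (S m).2.1 = N) :
    CrP N σ (RC S m) :=
  ⟨(S 0).2, ⟨0, Nat.zero_le _, rfl⟩, (S m).2, ⟨m, le_rfl, rfl⟩, h0, hm, h.path m le_rfl⟩

theorem Sg.crP' (h : Sg N u v σ S m) (h0 : (S 0).2.1 = N) (hm : (S m).2.1 = 0) :
    CrP N σ (RC S m) := by
  refine ⟨(S m).2, ⟨m, le_rfl, rfl⟩, (S 0).2, ⟨0, Nat.zero_le _, rfl⟩, hm, h0, ?_⟩
  have h1 := (h.path m le_rfl).swap
  exact Relation.ReflTransGen.mono (fun a b hab => ⟨hab.2.1, hab.1, op_symm hab.2.2⟩) _ _ h1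

end Pool.Agent.Y781.KW
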